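import Pool.Agent.R539.SD.Stm

/-!
# SD-CMP: colouring from a not-all-equal assignment (subtask of MP_77e9aa_lc)
-/

set_option autoImplicit false

namespace Pool.Agent.R278.SD

open Pool.Agent.NPC Pool.Agent.R544 Pool.Agent.R539.SD

theorem steps (a n y m : ℕ) (h : a < y) :
    (∃ s, 1 ≤ s ∧ s ≤ m ∧ y ≤ a + s * n ∧ a + s * n < y + n) ∨ a + m * n < y := by
  induction m with
  | zero => right; simpa using h
  | succ m ih =>
    rcases ih with ⟨s, h1, h2, h3, h4⟩ | h'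
    · exact Or.inl ⟨s, h1, by omega, h3, h4⟩
    · have e : (m + 1) * n = m * n + n := Nat.succ_mul m n
      by_cases h5 : y ≤ a + (m + 1) * n
      · exact Or.inl ⟨m + 1, by omega, le_rfl, h5, by omega⟩
      · exact Or.inr (by omega)

theorem trip {n r y b x0 x1 x2 : ℕ} (h1 : x1 ≤ x0 + n) (h2 : x2 ≤ x1 + n) (hb : b ≤ x2)
    (h0 : x0 + n + 1 ≤ b) (hb2 : b ≤ 2 * n) :
    W ((r + 2) * n + 1) n y x0 ∨ W ((r + 2) * n + 1) n y x1 ∨ W ((r + 2) * n + 1) n y x2 ∨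
      ∃ s, 1 ≤ s ∧ s ≤ r ∧ W ((r + 2) * n + 1) n y (b + s * n) := by
  have hk : (r + 2) * n = r * n + 2 * n := by ring
  by_cases c0 : y ≤ x0
  · exact Or.inl (Or.inl ⟨c0, by omega⟩)
  by_cases c1 : y ≤ x1
  · exact Or.inr (Or.inl (Or.inl ⟨c1, by omega⟩))
  by_cases c2 : y ≤ x2
  · exact Or.inr (Or.inr (Or.inl (Or.inl ⟨c2, by omega⟩)))
  rcases steps b n y r (by omega) with ⟨s, h3, h4, h5, h6⟩ | h3
  · exact Or.inr (Or.inr (Or.inr ⟨s, h3, h4, Or.inl ⟨h5, h6⟩⟩))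
  · refine Or.inl (Or.inr ?_)
    rw [hk]
    omega

theorem hub {n r y s w : ℕ} (hn : 1 ≤ n) (hs : s ≤ r) (hw1 : (s + 1) * n + 1 ≤ w)
    (hw2 : w ≤ (s + 2) * n) :
    W ((r + 2) * n + 1) n y w ∨ ∃ t, t ≤ r + 1 ∧
      W ((r + 2) * n + 1) n y (if t ≤ s + 1 then t * n else t * n + 1) := by
  have e1 : (s + 2) * n = (s + 1) * n + n := by ring
  have e2 : (r + 2) * n = (r + 1) * n + n := by ring
  have e3 : (r + 1) * n = (s + 1) * n + (r - s) * n := by
    rw [← Nat.add_mul]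
    congr 1
    omega
  by_cases c0 : y = 0
  · refine Or.inr ⟨0, by omega, ?_⟩
    rw [if_pos (by omega)]
    exact Or.inl ⟨by omega, by omega⟩
  rcases steps 0 n y (s + 1) (by omega) with ⟨u, h1, h2, h3, h4⟩ | h1
  · refine Or.inr ⟨u, by omega, ?_⟩
    rw [if_pos h2]
    exact Or.inl ⟨by omega, by omega⟩
  by_cases c1 : y ≤ w
  · exact Or.inl (Or.inl ⟨c1, by omega⟩)
  rcases steps ((s + 1) * n + 1) n y (r - s) (by omega) with ⟨u, h2, h3, h4, h5⟩ | h2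
  · refine Or.inr ⟨s + 1 + u, by omega, ?_⟩
    rw [if_neg (by omega)]
    have e4 : (s + 1 + u) * n = (s + 1) * n + u * n := by ring
    exact Or.inl ⟨by omega, by omega⟩
  · refine Or.inr ⟨0, by omega, ?_⟩
    rw [if_pos (by omega)]
    refine Or.inr ?_
    omega

/-- colour of the first vertex of a chain -/
def pA (n i : ℕ) : ℕ := if i % 2 = 0 then i / 2 else n + 1 + i / 2

/-- colour of the last vertex of a chain -/
def pB (n i : ℕ) : ℕ := if i % 2 = 0 then n - i / 2 else 2 * n - i / 2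

/-- base colour of a chain -/
def bs (n i : ℕ) : ℕ := if i % 2 = 0 then n + 1 + i / 2 else 2 * n - i / 2

theorem chain {n r y i U : ℕ} (hi : i < n) (hU : U = pA n (i + 1) ∨ U = pB n (i + 1)) :
    W ((r + 2) * n + 1) n y (pA n i) ∨ W ((r + 2) * n + 1) n y (pB n i) ∨
      W ((r + 2) * n + 1) n y U ∨
        ∃ s, 1 ≤ s ∧ s ≤ r ∧ W ((r + 2) * n + 1) n y (bs n i + s * n) := by
  unfold pA pB at hU
  by_cases he : i % 2 = 0
  · rw [if_neg (by omega), if_neg (by omega)] at hU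
    have hA : pA n i = i / 2 := by unfold pA; rw [if_pos he]
    have hB : pB n i = n - i / 2 := by unfold pB; rw [if_pos he]
    have hb : bs n i = n + 1 + i / 2 := by unfold bs; rw [if_pos he]
    rw [hA, hB, hb]
    exact trip (by omega) (by omega) (by omega) (by omega) (by omega)
  · rw [if_pos (by omega), if_pos (by omega)] at hU
    have hA : pA n i = n + 1 + i / 2 := by unfold pA; rw [if_neg he]
    have hB : pB n i = 2 * n - i / 2 := by unfold pB; rw [if_neg he]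
    have hb : bs n i = 2 * n - i / 2 := by unfold bs; rw [if_neg he]
    rw [hA, hB, hb]
    rcases trip (n := n) (r := r) (y := y) (b := 2 * n - i / 2) (x0 := U) (x1 := n + 1 + i / 2)
      (x2 := 2 * n - i / 2) (by omega) (by omega) (by omega) (by omega) (by omega) with
      h | h | h | h
    · exact Or.inr (Or.inr (Or.inl h))
    · exact Or.inl h
    · exact Or.inr (Or.inl h)
    · exact Or.inr (Or.inr (Or.inr h))

theorem bs_lb {n i : ℕ} (hi : i < n) : n + 1 ≤ bs n i := by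
  unfold bs
  split_ifs <;> omega

theorem bs_ub {n i : ℕ} (hi : i < n) : bs n i ≤ 2 * n := by
  unfold bs
  split_ifs <;> omega

theorem pA_ub {n i : ℕ} (hi : i ≤ n) (hn : 1 ≤ n) : pA n i ≤ 2 * n := by
  unfold pA
  split_ifs <;> omega

theorem pB_ub {n i : ℕ} (hi : i ≤ n) : pB n i ≤ 2 * n := by
  unfold pB
  split_ifs <;> omega

/-- the variables of a clause -/
def vr (φ : N3) (j i : ℕ) : ℕ :=
  if i = 0 then (tr φ j).1 else if i = 1 then (tr φ j).2.1 else (tr φ j).2.2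

/-- the colours -/
def C0 (n r : ℕ) (φ : N3) (τ : ℕ → Bool) (v : Vx) : ℕ :=
  if v.1 = 0 then (if τ v.2.1 = true then pA n (n - 1) else pB n (n - 1))
  else if v.1 = 1 then (if τ (vr φ v.2.1 v.2.2) = true then pB n (n - 1) else pA n (n - 1))
  else if v.1 = 2 then (if v.2.2 = 0 then pA n n else bs n (n - 1) + v.2.2 * n)
  else if v.1 = 3 then (if v.2.2 = 0 then pA n v.2.1 else
    if v.2.2 ≤ r then bs n v.2.1 + v.2.2 * n else pB n v.2.1)
  else if v.2.2 ≤ v.2.1 + 1 then v.2.2 * n else v.2.2 * n + 1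

/-- the colours, made small -/
def CC (n r : ℕ) (φ : N3) (τ : ℕ → Bool) (v : Vx) : ℕ :=
  if C0 n r φ τ v < (r + 2) * n + 1 then C0 n r φ τ v else 0

theorem CC_lt (n r : ℕ) (φ : N3) (τ : ℕ → Bool) (v : Vx) :
    CC n r φ τ v < (r + 2) * n + 1 := by
  unfold CC
  split_ifs with h
  · exact h
  · omega

section

variable {n r : ℕ} {φ : N3} {τ : ℕ → Bool}

theorem CC_eq {v : Vx} {x : ℕ} (h : C0 n r φ τ v = x) (hx : x < (r + 2) * n + 1) :
    CC n r φ τ v = x := by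
  unfold CC
  rw [h, if_pos hx]

theorem small (x : ℕ) (hx : x ≤ 2 * n) : x < (r + 2) * n + 1 := by
  have hk : (r + 2) * n = r * n + 2 * n := by ring
  omega

theorem small' {x s : ℕ} (hx : x ≤ 2 * n) (hs : s ≤ r) : x + s * n < (r + 2) * n + 1 := by
  have hk : (r + 2) * n = r * n + 2 * n := by ring
  have := Nat.mul_le_mul_right n hs
  omega

theorem C_var (hn : 1 ≤ n) (a : ℕ) :
    CC n r φ τ (0, a, 0) = if τ a = true then pA n (n - 1) else pB n (n - 1) := by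
  refine CC_eq (by simp [C0]) ?_
  split_ifs
  · exact small _ (pA_ub (by omega) hn)
  · exact small _ (pB_ub (by omega))

theorem C_occ (hn : 1 ≤ n) (j i : ℕ) :
    CC n r φ τ (1, j, i) = if τ (vr φ j i) = true then pB n (n - 1) else pA n (n - 1) := by
  refine CC_eq (by simp [C0]) ?_
  split_ifs
  · exact small _ (pB_ub (by omega))
  · exact small _ (pA_ub (by omega) hn)

theorem C_con0 (hn : 1 ≤ n) (q : ℕ) : CC n r φ τ (2, q, 0) = pA n n :=
  CC_eq (by simp [C0]) (small _ (pA_ub le_rfl hn))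

theorem C_con (hn : 1 ≤ n) (q : ℕ) {s : ℕ} (h1 : 1 ≤ s) (hs : s ≤ r) :
    CC n r φ τ (2, q, s) = bs n (n - 1) + s * n := by
  refine CC_eq ?_ (small' (bs_ub (by omega)) hs)
  have : s ≠ 0 := by omega
  simp [C0, this]

theorem C_pair0 (hn : 1 ≤ n) {i : ℕ} (hi : i < n) : CC n r φ τ (3, i, 0) = pA n i :=
  CC_eq (by simp [C0]) (small _ (pA_ub hi.le hn))

theorem C_pair {i : ℕ} (hi : i < n) {s : ℕ} (h1 : 1 ≤ s) (hs : s ≤ r) :
    CC n r φ τ (3, i, s) = bs n i + s * n := by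
  refine CC_eq ?_ (small' (bs_ub hi) hs)
  have : s ≠ 0 := by omega
  simp [C0, this, hs]

theorem C_pair1 {i : ℕ} (hi : i < n) : CC n r φ τ (3, i, r + 1) = pB n i := by
  refine CC_eq ?_ (small _ (pB_ub hi.le))
  simp [C0]

theorem C_hub (hn : 1 ≤ n) (s : ℕ) {t : ℕ} (ht : t ≤ r + 1) :
    CC n r φ τ (4, s, t) = if t ≤ s + 1 then t * n else t * n + 1 := by
  have e : (r + 2) * n = (r + 1) * n + n := by ring
  have := Nat.mul_le_mul_right n ht
  refine CC_eq (by simp [C0]) ?_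
  split_ifs <;> omega

theorem hubHit (hn : 1 ≤ n) {s : ℕ} (hs : s ≤ r) {v : Vx} {x : ℕ}
    (hv : CC n r φ τ v = x + s * n) (h1 : n + 1 ≤ x) (h2 : x ≤ 2 * n) :
    Hit ((r + 2) * n + 1) n (CC n r φ τ) (chn 4 s (r + 1) ∪ {v}) := by
  intro y hy
  have e1 : (s + 1) * n = s * n + n := by ring
  have e2 : (s + 2) * n = s * n + 2 * n := by ring
  rcases hub (n := n) (r := r) (y := y) (s := s) (w := x + s * n) hn hs (by omega) (by omega) with
    h | ⟨t, ht, h⟩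
  · exact ⟨v, Or.inr rfl, by rw [hv]; exact h⟩
  · exact ⟨(4, s, t), Or.inl ⟨t, ht, rfl⟩, by rw [C_hub hn s ht]; exact h⟩

theorem pairHit (hn : 1 ≤ n) {i : ℕ} (hi : i < n) {v : Vx}
    (hv : CC n r φ τ v = pA n (i + 1) ∨ CC n r φ τ v = pB n (i + 1)) :
    Hit ((r + 2) * n + 1) n (CC n r φ τ) (chn 3 i (r + 1) ∪ {v}) := by
  intro y hy
  rcases chain (r := r) (y := y) hi hv with h | h | h | ⟨s, h1, h2, h⟩
  · exact ⟨(3, i, 0), Or.inl ⟨0, by omega, rfl⟩, by rw [C_pair0 hn hi]; exact h⟩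
  · exact ⟨(3, i, r + 1), Or.inl ⟨r + 1, le_rfl, rfl⟩, by rw [C_pair1 hi]; exact h⟩
  · exact ⟨v, Or.inr rfl, h⟩
  · exact ⟨(3, i, s), Or.inl ⟨s, by omega, rfl⟩, by rw [C_pair hi h1 h2]; exact h⟩

theorem conHit (hn : 1 ≤ n) (q : ℕ) {X : Set Vx}
    (hA : ∃ v ∈ X, CC n r φ τ v = pA n (n - 1)) (hB : ∃ v ∈ X, CC n r φ τ v = pB n (n - 1)) :
    Hit ((r + 2) * n + 1) n (CC n r φ τ) (chn 2 q r ∪ X) := by
  intro y hy
  have hn' : n - 1 + 1 = n := by omega
  rcases chain (n := n) (r := r) (y := y) (i := n - 1) (U := pA n n) (by omega)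
    (Or.inl (by rw [hn'])) with h | h | h | ⟨s, h1, h2, h⟩
  · obtain ⟨v, hv, e⟩ := hA
    exact ⟨v, Or.inr hv, by rw [e]; exact h⟩
  · obtain ⟨v, hv, e⟩ := hB
    exact ⟨v, Or.inr hv, by rw [e]; exact h⟩
  · exact ⟨(2, q, 0), Or.inl ⟨0, by omega, rfl⟩, by rw [C_con0 hn]; exact h⟩
  · exact ⟨(2, q, s), Or.inl ⟨s, h2, rfl⟩, by rw [C_con hn q h1 h2]; exact h⟩

theorem con012 (hn : 1 ≤ n) (q j i : ℕ) :
    Hit ((r + 2) * n + 1) n (CC n r φ τ) (chn 2 q r ∪ {(0, vr φ j i, 0), (1, j, i)}) := by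
  have h1 := C_var (r := r) (φ := φ) (τ := τ) hn (vr φ j i)
  have h2 := C_occ (r := r) (φ := φ) (τ := τ) hn j i
  by_cases ht : τ (vr φ j i) = true
  · rw [if_pos ht] at h1 h2
    exact conHit hn q ⟨_, Or.inl rfl, h1⟩ ⟨_, Or.inr rfl, h2⟩
  · rw [if_neg ht] at h1 h2
    exact conHit hn q ⟨_, Or.inr rfl, h2⟩ ⟨_, Or.inl rfl, h1⟩

end

theorem cmp : SCMP := by
  intro n r φ hn hφ
  obtain ⟨τ, hτ⟩ := (nae3_iff φ).1 hφ
  refine ⟨CC n r φ τ, CC_lt n r φ τ, ?_⟩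
  refine ⟨?_, ?_, ?_, ?_, ?_, ?_, ?_, ?_, ?_⟩
  · intro s h1 hs i hi
    exact hubHit hn hs (C_pair hi h1 hs) (bs_lb hi) (bs_ub hi)
  · intro s h1 hs q _
    exact hubHit hn hs (C_con hn q h1 hs) (bs_lb (by omega)) (bs_ub (by omega))
  · intro i hi
    exact pairHit hn (by omega) (Or.inl (C_pair0 hn hi))
  · intro i hi
    exact pairHit hn (by omega) (Or.inr (C_pair1 hi))
  · intro q _
    have hn' : n - 1 + 1 = n := by omega
    exact pairHit hn (by omega) (Or.inl (by rw [C_con0 hn, hn']))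
  · intro j _
    exact con012 hn (4 * j) j 0
  · intro j _
    exact con012 hn (4 * j + 1) j 1
  · intro j _
    exact con012 hn (4 * j + 2) j 2
  · intro j hj
    have h := hτ j hj
    have h0 := C_occ (r := r) (φ := φ) (τ := τ) hn j 0
    have h1 := C_occ (r := r) (φ := φ) (τ := τ) hn j 1
    have h2 := C_occ (r := r) (φ := φ) (τ := τ) hn j 2
    simp only [vr, if_true, one_ne_zero, if_false, OfNat.ofNat_ne_zero, OfNat.ofNat_ne_one]
      at h0 h1 h2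
    have m0 : ((1, j, 0) : Vx) ∈ ({(1, j, 0), (1, j, 1), (1, j, 2)} : Set Vx) := by simp
    have m1 : ((1, j, 1) : Vx) ∈ ({(1, j, 0), (1, j, 1), (1, j, 2)} : Set Vx) := by simp
    have m2 : ((1, j, 2) : Vx) ∈ ({(1, j, 0), (1, j, 1), (1, j, 2)} : Set Vx) := by simp
    cases t0 : τ (tr φ j).1 <;> cases t1 : τ (tr φ j).2.1 <;> cases t2 : τ (tr φ j).2.2 <;>
      simp only [t0, t1, t2, if_true, Bool.false_eq_true, if_false] at h0 h1 h2 h
    · exact absurd ⟨trivial, trivial⟩ h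
    · exact conHit hn _ ⟨_, m0, h0⟩ ⟨_, m2, h2⟩
    · exact conHit hn _ ⟨_, m0, h0⟩ ⟨_, m1, h1⟩
    · exact conHit hn _ ⟨_, m0, h0⟩ ⟨_, m1, h1⟩
    · exact conHit hn _ ⟨_, m1, h1⟩ ⟨_, m0, h0⟩
    · exact conHit hn _ ⟨_, m1, h1⟩ ⟨_, m0, h0⟩
    · exact conHit hn _ ⟨_, m2, h2⟩ ⟨_, m0, h0⟩
    · exact absurd ⟨trivial, trivial⟩ h

end Pool.Agent.R278.SD
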